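import Mathlib
import Pool.Agent.R359.ALine

/-!
# MP_8fd369_lc, Q1 (yes): a dense Aronszajn line on which Player II wins all games `BG(A, S)`
-/

set_option autoImplicit false

namespace Pool.Agent.Results.MP_8fd369_lc.PlayerTwoWins

open Set Pool.Agent.R359.ALine

/-- The order type `ω₁` (the initial ordinal of `ℵ₁`). -/
abbrev Omega1 : Type := (Cardinal.aleph 1).ord.ToType

/-- Aronszajn lines: uncountable, `ω₁`-free, `ω₁*`-free and without uncountable subset
order-isomorphic to a set of reals. -/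
def IsAronszajn (A : Type) [LinearOrder A] : Prop :=
  ¬ (Set.univ : Set A).Countable ∧ IsEmpty (Omega1 ↪o A) ∧ IsEmpty (Omega1ᵒᵈ ↪o A) ∧
    ∀ Y : Set A, (∃ R : Set ℝ, Nonempty (Y ≃o R)) → Y.Countable

/-- The list of the first `n` rounds `(a 0, b 0), …, (a (n-1), b (n-1))`. -/
def history {X : Type} (a b : ℕ → X) (n : ℕ) : List (X × X) :=
  (List.range n).map fun i => (a i, b i)

/-- `σ` is a winning strategy of Player II in the game `BG(X, S)`: the answer of Player II at turn
`n` is `σ` of the previous rounds and the move `a n` of Player I.  As long as the moves of Player I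
are legal, the answers are legal, and if all moves of Player I are legal no point of `S` is strictly
between all `a n` and `b n`. -/
def IsWinningII {X : Type} [LinearOrder X] (S : Set X) (σ : List (X × X) → X → X) : Prop :=
  ∀ a b : ℕ → X, (∀ n, b n = σ (history a b n) (a n)) →
    (∀ n, (∀ m, m < n → a m < a (m + 1) ∧ a (m + 1) < b m) →
      a n < b n ∧ ∀ m, n = m + 1 → b n < b m) ∧
    ((∀ n, a n < a (n + 1) ∧ a (n + 1) < b n) → ¬ ∃ x ∈ S, ∀ n, a n < x ∧ x < b n)

/-- Player II has a winning strategy in `BG(X, S)`. -/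
def IIWins {X : Type} [LinearOrder X] (S : Set X) : Prop :=
  ∃ σ : List (X × X) → X → X, IsWinningII S σ

section

open Pool.Agent.Results.MP_b9a716_gt.MooreLSpace

variable {W : Type} [LinearOrder W] [OrderBot W] [WellFoundedLT W] [Om W]

theorem game (S : Set (AT W)) : IIWins S := by
  refine ⟨fun _ x => ex x 0, fun a b hb => ?_⟩
  have hb' : ∀ n, b n = ex (a n) 0 := hb
  have step : ∀ n, a n < a (n + 1) → a (n + 1) < b n → b (n + 1) < b n := by
    intro n h1 h2
    rw [hb' n] at h2
    obtain ⟨h3, r, hr, h4⟩ := between h1 h2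
    have hlen : len (a n) < len (a (n + 1)) := by
      rw [lt_len, h4]; exact WithBot.coe_ne_bot
    rw [hb', hb', lt_iff]
    refine ⟨len (a n), fun η hη => ?_, ?_⟩
    · rw [ex_lt (hη.trans hlen), ex_lt hη, h3 η hη]
    · rw [ex_lt hlen, h4, ex_len]
      exact WithBot.coe_lt_coe.2 hr
  refine ⟨fun n hn => ⟨by rw [hb']; exact lt_ex _ _, ?_⟩, ?_⟩
  · rintro m rfl
    obtain ⟨h1, h2⟩ := hn m (Nat.lt_succ_self m)
    exact step m h1 h2
  · rintro h ⟨x, -, hx⟩
    have h1 : ∀ n, ∃ r : ℤ, r < 0 ∧ fn x (len (a n)) = r := fun n =>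
      (between (hx n).1 (hb' n ▸ (hx n).2)).2
    have hmono : StrictMono fun n => len (a n) := by
      apply strictMono_nat_of_lt_succ
      intro n
      obtain ⟨h3, r, hr, h4⟩ := between (h n).1 (hb' n ▸ (h n).2)
      rw [lt_len, h4]; exact WithBot.coe_ne_bot
    apply Set.infinite_range_of_injective hmono.injective
    refine (node x).2.2.subset ?_
    rintro _ ⟨n, rfl⟩
    obtain ⟨r, hr, h2⟩ := h1 n
    refine ⟨?_, ?_⟩
    · rw [lt_len, h2]; exact WithBot.coe_ne_bot
    · show fn x (len (a n)) ≠ _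
      rw [h2]
      intro hcon
      have := WithBot.coe_injective hcon
      omega

theorem omega1_Iio (i : Omega1) : (Set.Iio i).Countable :=
  (Cardinal.countable_iff_lt_aleph_one _).2 (Cardinal.mk_Iio_toType_ord_lt i)

theorem omega1_not_countable : ¬ (Set.univ : Set Omega1).Countable := by
  intro h
  have h2 := (Cardinal.countable_iff_lt_aleph_one _).1 h
  rw [Cardinal.mk_univ, Cardinal.mk_ord_toType] at h2
  exact lt_irrefl _ h2

theorem aronszajn : IsAronszajn (AT W) := by
  refine ⟨uncountable_AT, ⟨fun f => ?_⟩, ⟨fun f => ?_⟩, ?_⟩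
  · have hY : ¬ (Set.range f).Countable := by
      intro h
      apply omega1_not_countable
      exact Set.MapsTo.countable_of_injOn (f := f) (t := Set.range f) (fun x _ => ⟨x, rfl⟩)
        f.injective.injOn h
    obtain ⟨⟨y, ⟨i, rfl⟩, hc⟩, -⟩ := split_lt _ hY
    apply hc
    refine ((omega1_Iio i).image f).mono ?_
    rintro z ⟨⟨j, rfl⟩, hj⟩
    exact ⟨j, f.lt_iff_lt.1 hj, rfl⟩
  · have hY : ¬ (Set.range f).Countable := by
      intro h
      apply omega1_not_countable
      exact Set.MapsTo.countable_of_injOn (f := fun x => f (OrderDual.toDual x)) (t := Set.range f)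
        (fun x _ => ⟨_, rfl⟩) (fun x _ y _ h => OrderDual.toDual.injective (f.injective h)) h
    obtain ⟨-, ⟨y, ⟨i, rfl⟩, hc⟩⟩ := split_lt _ hY
    apply hc
    refine ((omega1_Iio (OrderDual.ofDual i)).image fun x => f (OrderDual.toDual x)).mono ?_
    rintro z ⟨⟨j, rfl⟩, hj⟩
    exact ⟨OrderDual.ofDual j, f.lt_iff_lt.1 hj, rfl⟩
  · rintro Y ⟨R, ⟨g⟩⟩
    exact real_type Y (fun y => (g y : ℝ)) (fun y y' h => g.strictMono h)

end

/-- **Q1 (yes).** There is a dense Aronszajn line `A` such that Player II has a winning strategy in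
`BG(A, S)` for every subset `S`. -/
theorem result : ∃ (A : Type) (_ : LinearOrder A), DenselyOrdered A ∧ IsAronszajn A ∧
    ∀ S : Set A, IIWins S := by
  obtain ⟨W, i1, i2, i3, i4, -⟩ := Pool.Agent.Results.MP_b9a716_gt.MooreLSpace.exists_W
  exact ⟨AT W, inferInstance, inferInstance, aronszajn, game⟩

end Pool.Agent.Results.MP_8fd369_lc.PlayerTwoWins
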